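import Pool.Agent.W386.Conv

set_option autoImplicit false

/-!
# Groups of type `FP_1` are finitely generated
-/

namespace Pool.Agent.Y28

open Pool.Agent.W386

variable {G : Type} [Group G]

/-- the projection of `ℤ[G]` to the free abelian group on the cosets of `H` -/
noncomputable def cosetMap (H : Subgroup G) : ZG G →+ (G ⧸ H →₀ ℤ) where
  toFun r := Finsupp.mapDomain (fun g : G => (g : G ⧸ H)) r.coeff
  map_zero' := by simp
  map_add' x y := by
    rw [MonoidAlgebra.coeff_add, Finsupp.mapDomain_add]

theorem cosetMap_single (H : Subgroup G) (g : G) (z : ℤ) :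
    cosetMap H (MonoidAlgebra.single g z) = Finsupp.single (g : G ⧸ H) z := by
  change Finsupp.mapDomain (fun g : G => (g : G ⧸ H)) (MonoidAlgebra.single g z).coeff = _
  rw [MonoidAlgebra.coeff_single, Finsupp.mapDomain_single]

theorem cosetMap_mul (H : Subgroup G) (w : ZG G) (hw : ∀ a ∈ w.coeff.support, a ∈ H)
    (haug : aug G w = 0) (r : ZG G) : cosetMap H (r * w) = 0 := by
  let S : AddSubgroup (ZG G) :=
    { carrier := {r | cosetMap H (r * w) = 0}
      add_mem' := by
        intro x y hx hy
        simp only [Set.mem_ofPred_eq] at hx hy ⊢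
        rw [add_mul, map_add, hx, hy, add_zero]
      zero_mem' := by simp
      neg_mem' := by
        intro x hx
        simp only [Set.mem_ofPred_eq] at hx ⊢
        rw [neg_mul, map_neg, hx, neg_zero] }
  refine zg_induction S (fun g => ?_) r
  change cosetMap H (MonoidAlgebra.of ℤ G g * w) = 0
  have h1 : cosetMap H (MonoidAlgebra.of ℤ G g * w) = Finsupp.single (g : G ⧸ H) (aug G w) := by
    have h2 : w = w.coeff.sum MonoidAlgebra.single := (MonoidAlgebra.sum_coeff_single w).symm
    have h3 : aug G w = ∑ a ∈ w.coeff.support, w.coeff a := by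
      conv_lhs => rw [h2]
      rw [Finsupp.sum, map_sum]
      exact Finset.sum_congr rfl fun a _ => aug_single a _
    have h4 : MonoidAlgebra.of ℤ G g * w =
        ∑ a ∈ w.coeff.support, MonoidAlgebra.single (g * a) (w.coeff a) := by
      conv_lhs => rw [h2]
      rw [Finsupp.sum, Finset.mul_sum]
      refine Finset.sum_congr rfl fun a _ => ?_
      rw [MonoidAlgebra.of_apply, MonoidAlgebra.single_mul_single, one_mul]
    rw [h4, map_sum, h3]
    have h5 : ∀ a ∈ w.coeff.support, cosetMap H (MonoidAlgebra.single (g * a) (w.coeff a)) =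
        Finsupp.single (g : G ⧸ H) (w.coeff a) := by
      intro a ha
      rw [cosetMap_single]
      congr 1
      rw [QuotientGroup.eq]
      simpa [mul_assoc] using H.inv_mem (hw a ha)
    rw [Finset.sum_congr rfl h5, ← Finsupp.single_finsetSum]
  rw [h1, haug, Finsupp.single_zero]

theorem fg_of_fps (h : FPs (ZG G) 2 (Triv G)) : Group.FG G := by
  classical
  have h1 : FPs (ZG G) 1 (LinearMap.ker (sumAug G 1)) :=
    FPs.ker_of_cover (FGF.fin 1) h (sumAug G 1) (sumAug_surj ⟨fun _ => 1, by simp⟩)
  obtain ⟨k, f, hf, -⟩ := h1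
  let w : Fin k → ZG G := fun s => (f (Pi.single s 1)).1 0
  let T : Finset G := Finset.univ.biUnion (fun s => (w s).coeff.support)
  let H : Subgroup G := Subgroup.closure T
  have hw : ∀ s, ∀ a ∈ (w s).coeff.support, a ∈ H := by
    intro s a ha
    refine Subgroup.subset_closure ?_
    simp only [T, Finset.coe_biUnion, Set.mem_iUnion]
    exact ⟨s, Finset.mem_coe.2 (Finset.mem_univ s), ha⟩
  have hw0 : ∀ s, aug G (w s) = 0 := by
    intro s
    have h2 := (sumAug_mem_ker _).1 (f (Pi.single s 1)).2
    simpa using h2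
  have key : ∀ x : LinearMap.ker (sumAug G 1), cosetMap H (x.1 0) = 0 := by
    intro x
    obtain ⟨y, rfl⟩ := hf x
    have h3 : y = ∑ s, y s • (Pi.single s 1 : Fin k → ZG G) := by
      funext t
      simp [Finset.sum_apply, Pi.single_apply]
    rw [h3, map_sum]
    have h4 : ((∑ s, f (y s • (Pi.single s 1 : Fin k → ZG G)) :
        LinearMap.ker (sumAug G 1)).1 0) = ∑ s, y s * w s := by
      rw [AddSubmonoidClass.coe_finsetSum, Finset.sum_apply]
      refine Finset.sum_congr rfl fun s _ => ?_
      rw [map_smul]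
      rfl
    rw [h4, map_sum]
    exact Finset.sum_eq_zero fun s _ => cosetMap_mul H (w s) (hw s) (hw0 s) (y s)
  refine ⟨(Subgroup.fg_iff _).2 ⟨T, ?_, T.finite_toSet⟩⟩
  refine (Subgroup.eq_top_iff' _).2 fun g => ?_
  have h5 := key ⟨fun _ => MonoidAlgebra.of ℤ G g - 1, by
    rw [sumAug_mem_ker, Fin.sum_univ_one, map_sub, aug_of, map_one, sub_self]⟩
  change cosetMap H (MonoidAlgebra.of ℤ G g - 1) = 0 at h5
  rw [map_sub, MonoidAlgebra.of_apply, MonoidAlgebra.one_def, cosetMap_single, cosetMap_single,
    sub_eq_zero] at h5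
  have h6 : (g : G ⧸ H) = ((1 : G) : G ⧸ H) := by
    rcases (Finsupp.single_eq_single_iff _ _ _ _).1 h5 with h | h
    · exact h.1
    · exact absurd h.1 one_ne_zero
  have h7 := QuotientGroup.eq.1 h6
  have h8 : g⁻¹ ∈ H := by simpa using h7
  simpa using H.inv_mem h8

end Pool.Agent.Y28
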