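import Pool.Agent.H365PP.Final

set_option autoImplicit false

namespace Pool.Agent.Y28.CrossA

open Filter Topology Finset

/-- zeros of a nonzero quadratic are finite -/
lemma quad_finite (A B C : ℝ) (h : B ≠ 0 ∨ C ≠ 0) : {t : ℝ | A + B * t + C * t ^ 2 = 0}.Finite := by
  classical
  let p : Polynomial ℝ := Polynomial.C A + Polynomial.C B * Polynomial.X +
    Polynomial.C C * Polynomial.X ^ 2
  have hp : p ≠ 0 := by
    intro h0
    have h1 : p.coeff 1 = 0 := by rw [h0]; simp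
    have h2 : p.coeff 2 = 0 := by rw [h0]; simp
    simp only [p, Polynomial.coeff_add, Polynomial.coeff_C_mul, Polynomial.coeff_X_pow,
      Polynomial.coeff_X, Polynomial.coeff_C] at h1 h2
    norm_num at h1 h2
    rcases h with h | h
    · exact h h1
    · exact h h2
  refine (Polynomial.finite_setOf_isRoot hp).subset ?_
  intro t ht
  simp only [Set.mem_setOf_eq] at ht ⊢
  simp only [Polynomial.IsRoot.def, p, Polynomial.eval_add, Polynomial.eval_mul,
    Polynomial.eval_C, Polynomial.eval_X, Polynomial.eval_pow]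
  exact ht

lemma quad_ev (A B C : ℝ) (h : B ≠ 0 ∨ C ≠ 0) : ∀ᶠ t in 𝓝[≠] (0 : ℝ), A + B * t + C * t ^ 2 ≠ 0 := by
  have h1 := (quad_finite A B C h).compl_mem_cofinite
  have h2 := nhdsNE_le_cofinite (0 : ℝ) h1
  filter_upwards [h2] with t ht
  exact ht

/-- the orientation determinant -/
def D (a b c : ℝ × ℝ) : ℝ := (b.1 - a.1) * (c.2 - a.2) - (c.1 - a.1) * (b.2 - a.2)

lemma not_collinear_of_D {a b c : ℝ × ℝ} (h : D a b c ≠ 0) :
    ¬ Collinear ℝ ({a, b, c} : Set (ℝ × ℝ)) := by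
  intro hc
  rw [collinear_iff_of_mem (p₀ := a) (by simp)] at hc
  obtain ⟨v, hv⟩ := hc
  obtain ⟨r, hr⟩ := hv b (by simp)
  obtain ⟨s, hs⟩ := hv c (by simp)
  apply h
  unfold D
  rw [hr, hs]
  simp
  ring

/-- perturbed points -/
def phi (g : ℝ × ℝ → ℕ) (t : ℝ) (x : ℝ × ℝ) : ℝ × ℝ :=
  (x.1 + t * (g x : ℝ), x.2 + t * (g x : ℝ) ^ 2)

lemma phi_zero (g : ℝ × ℝ → ℕ) (x : ℝ × ℝ) : phi g 0 x = x := by
  unfold phi; simp

lemma phi_cont (g : ℝ × ℝ → ℕ) (x : ℝ × ℝ) : Continuous (fun t => phi g t x) := by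
  unfold phi; fun_prop

lemma D_phi (g : ℝ × ℝ → ℕ) (t : ℝ) (x y z : ℝ × ℝ) :
    D (phi g t x) (phi g t y) (phi g t z) = D x y z +
      ((y.1 - x.1) * ((g z : ℝ) ^ 2 - (g x : ℝ) ^ 2) + ((g y : ℝ) - g x) * (z.2 - x.2)
        - (z.1 - x.1) * ((g y : ℝ) ^ 2 - (g x : ℝ) ^ 2) - ((g z : ℝ) - g x) * (y.2 - x.2)) * t +
      (((g y : ℝ) - g x) * ((g z : ℝ) - g x) * ((g z : ℝ) - g y)) * t ^ 2 := by
  unfold D phi
  simp only
  ring

lemma good_ev (W : Finset (ℝ × ℝ)) (g : ℝ × ℝ → ℕ) (hg : Set.InjOn g (W : Set (ℝ × ℝ))) :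
    ∀ᶠ t in 𝓝[≠] (0 : ℝ), Set.InjOn (phi g t) (W : Set (ℝ × ℝ)) ∧
      ∀ x ∈ W, ∀ y ∈ W, ∀ z ∈ W, x ≠ y → y ≠ z → x ≠ z →
        D (phi g t x) (phi g t y) (phi g t z) ≠ 0 := by
  have hgne : ∀ x ∈ W, ∀ y ∈ W, x ≠ y → ((g x : ℝ) - g y) ≠ 0 := by
    intro x hx y hy hxy h
    apply hxy
    apply hg hx hy
    have : (g x : ℝ) = g y := by linarith
    exact_mod_cast this
  rw [eventually_and]
  constructor
  · have : ∀ᶠ t in 𝓝[≠] (0 : ℝ), ∀ x ∈ W, ∀ y ∈ W, x ≠ y → phi g t x ≠ phi g t y := by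
      rw [Filter.eventually_all_finset]
      intro x hx
      rw [Filter.eventually_all_finset]
      intro y hy
      by_cases hxy : x = y
      · exact Eventually.of_forall (fun t h => absurd hxy h)
      · filter_upwards [quad_ev (x.1 - y.1) ((g x : ℝ) - g y) 0 (Or.inl (hgne x hx y hy hxy))] with t ht _ h
        apply ht
        have := congrArg Prod.fst h
        unfold phi at this
        simp only at this
        linarith
    filter_upwards [this] with t ht x hx y hy hxy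
    by_contra hne
    exact ht x hx y hy hne hxy
  · rw [Filter.eventually_all_finset]
    intro x hx
    rw [Filter.eventually_all_finset]
    intro y hy
    rw [Filter.eventually_all_finset]
    intro z hz
    by_cases hxy : x = y
    · exact Eventually.of_forall (fun t h => absurd hxy h)
    by_cases hyz : y = z
    · exact Eventually.of_forall (fun t _ h => absurd hyz h)
    by_cases hxz : x = z
    · exact Eventually.of_forall (fun t _ _ h => absurd hxz h)
    filter_upwards [quad_ev (D x y z) _ _ (Or.inr (mul_ne_zero (mul_ne_zero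
      (hgne y hy x hx (Ne.symm hxy)) (hgne z hz x hx (Ne.symm hxz)))
      (hgne z hz y hy (Ne.symm hyz))))] with t ht _ _ _
    rw [D_phi]
    exact ht

/-- meeting of moving segments is a closed condition -/
lemma closed_meet (a b c d : ℝ → ℝ × ℝ) (ha : Continuous a) (hb : Continuous b)
    (hc : Continuous c) (hd : Continuous d) :
    IsClosed {t : ℝ | (segment ℝ (a t) (b t) ∩ segment ℝ (c t) (d t)).Nonempty} := by
  let K : Set (ℝ × (unitInterval × unitInterval)) :=
    {x | a x.1 + (x.2.1 : ℝ) • (b x.1 - a x.1) = c x.1 + (x.2.2 : ℝ) • (d x.1 - c x.1)}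
  have hK : IsClosed K := by
    apply isClosed_eq
    · fun_prop
    · fun_prop
  have himg : {t : ℝ | (segment ℝ (a t) (b t) ∩ segment ℝ (c t) (d t)).Nonempty} = Prod.fst '' K := by
    ext t
    simp only [Set.mem_setOf_eq, Set.mem_image, Prod.exists, exists_and_right, exists_eq_right]
    constructor
    · rintro ⟨x, hx1, hx2⟩
      rw [segment_eq_image'] at hx1 hx2
      obtain ⟨s, hs, hs'⟩ := hx1
      obtain ⟨u, hu, hu'⟩ := hx2
      refine ⟨⟨s, hs⟩, ⟨u, hu⟩, ?_⟩
      show a t + s • (b t - a t) = c t + u • (d t - c t)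
      simp only at hs' hu'
      rw [hs', hu']
    · rintro ⟨s, u, h⟩
      have h' : a t + (s : ℝ) • (b t - a t) = c t + (u : ℝ) • (d t - c t) := h
      refine ⟨a t + (s : ℝ) • (b t - a t), ?_, ?_⟩
      · rw [segment_eq_image']
        exact ⟨s, s.2, rfl⟩
      · rw [h', segment_eq_image']
        exact ⟨u, u.2, rfl⟩
  rw [himg]
  exact isClosedMap_fst_of_compactSpace _ hK

/-- The bipartite theorem without general position. -/
theorem bip : ∃ c : ℝ, 0 < c ∧ ∀ r : ℕ, 1 ≤ r → ∀ V₁ V₂ : Finset (ℝ × ℝ),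
    V₁.card = r → V₂.card = r → Disjoint V₁ V₂ →
    ∃ (k : ℕ) (a b : Fin k → ℝ × ℝ), c * r ≤ k ∧ (∀ i, a i ∈ V₁) ∧ (∀ i, b i ∈ V₂) ∧
      ∀ i j, i ≠ j → a i ≠ a j ∧ b i ≠ b j ∧
        (segment ℝ (a i) (b i) ∩ segment ℝ (a j) (b j)).Nonempty := by
  classical
  obtain ⟨c, hc, h⟩ := Pool.Agent.H365PP.q2
  refine ⟨c, hc, ?_⟩
  intro r hr V₁ V₂ h1 h2 hd
  obtain ⟨g, hg⟩ := Set.countable_iff_exists_injOn.1
    ((V₁ ∪ V₂ : Finset (ℝ × ℝ)).finite_toSet.countable)
  -- the predicate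
  let Good : Finset ((ℝ × ℝ) × (ℝ × ℝ)) → ℝ → Prop := fun F t =>
    c * r ≤ F.card ∧ ∀ e ∈ F, ∀ f ∈ F, e ≠ f → e.1 ≠ f.1 ∧ e.2 ≠ f.2 ∧
      (segment ℝ (phi g t e.1) (phi g t e.2) ∩ segment ℝ (phi g t f.1) (phi g t f.2)).Nonempty
  have hev : ∀ᶠ t in 𝓝[≠] (0 : ℝ), ∃ F ∈ (V₁ ×ˢ V₂).powerset, Good F t := by
    filter_upwards [good_ev (V₁ ∪ V₂) g hg] with t ht
    obtain ⟨hti, htD⟩ := ht
    have hti1 : Set.InjOn (phi g t) (V₁ : Set (ℝ × ℝ)) := hti.mono (by
      intro x hx; exact mem_coe.2 (mem_union_left _ (mem_coe.1 hx)))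
    have hti2 : Set.InjOn (phi g t) (V₂ : Set (ℝ × ℝ)) := hti.mono (by
      intro x hx; exact mem_coe.2 (mem_union_right _ (mem_coe.1 hx)))
    obtain ⟨k, a, b, hk, ha, hb, hab⟩ := h r hr (V₁.image (phi g t)) (V₂.image (phi g t))
      (by rw [card_image_of_injOn hti1, h1]) (by rw [card_image_of_injOn hti2, h2])
      (by
        rw [Finset.disjoint_left]
        intro x hx hx'
        obtain ⟨u, hu, rfl⟩ := mem_image.1 hx
        obtain ⟨w, hw, hw'⟩ := mem_image.1 hx'
        have : w = u := hti (mem_coe.2 (mem_union_right _ hw)) (mem_coe.2 (mem_union_left _ hu)) hw'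
        rw [this] at hw
        exact Finset.disjoint_left.1 hd hu hw)
      (by
        rw [← image_union]
        intro x hx y hy z hz hxy hyz hxz
        obtain ⟨x', hx', rfl⟩ := mem_image.1 hx
        obtain ⟨y', hy', rfl⟩ := mem_image.1 hy
        obtain ⟨z', hz', rfl⟩ := mem_image.1 hz
        exact not_collinear_of_D (htD x' hx' y' hy' z' hz' (fun e => hxy (by rw [e]))
          (fun e => hyz (by rw [e])) (fun e => hxz (by rw [e]))))
    choose a' ha' haa using fun i => mem_image.1 (ha i)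
    choose b' hb' hbb using fun i => mem_image.1 (hb i)
    refine ⟨univ.image (fun i => (a' i, b' i)), ?_, ?_, ?_⟩
    · rw [mem_powerset]
      intro e he
      obtain ⟨i, _, rfl⟩ := mem_image.1 he
      exact mem_product.2 ⟨ha' i, hb' i⟩
    · rw [card_image_of_injective]
      · simpa using hk
      · intro i j hij
        by_contra hne
        have h3 := (hab i j hne).1
        apply h3
        rw [← haa i, ← haa j]
        simp only [Prod.mk.injEq] at hij
        rw [hij.1]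
    · intro e he f hf hef
      obtain ⟨i, _, rfl⟩ := mem_image.1 he
      obtain ⟨j, _, rfl⟩ := mem_image.1 hf
      have hij : i ≠ j := fun e => hef (by rw [e])
      obtain ⟨g1, g2, g3⟩ := hab i j hij
      refine ⟨?_, ?_, ?_⟩
      · intro e
        apply g1
        rw [← haa i, ← haa j]
        simp only at e
        rw [e]
      · intro e
        apply g2
        rw [← hbb i, ← hbb j]
        simp only at e
        rw [e]
      · simp only [haa, hbb]
        exact g3.mono (Set.inter_subset_inter (openSegment_subset_segment ℝ _ _)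
          (openSegment_subset_segment ℝ _ _))
  have hfr : ∃ F ∈ (V₁ ×ˢ V₂).powerset, ∃ᶠ t in 𝓝[≠] (0 : ℝ), Good F t := by
    by_contra hcon
    push Not at hcon
    have h3 : ∀ᶠ t in 𝓝[≠] (0 : ℝ), ∀ F ∈ (V₁ ×ˢ V₂).powerset, ¬ Good F t := by
      rw [Filter.eventually_all_finset]
      intro F hF
      have := hcon F hF
      simpa [Filter.not_frequently] using this
    obtain ⟨t, ⟨F, hF, hG⟩, h4⟩ := (hev.and h3).exists
    exact h4 F hF hG
  obtain ⟨F, hF, hFr⟩ := hfr
  have hF' := mem_powerset.1 hF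
  obtain ⟨t0, ht0⟩ := hFr.exists
  have hpair : ∀ e ∈ F, ∀ f ∈ F, e ≠ f →
      (segment ℝ e.1 e.2 ∩ segment ℝ f.1 f.2).Nonempty := by
    intro e he f hf hef
    have hcl := closed_meet (fun t => phi g t e.1) (fun t => phi g t e.2) (fun t => phi g t f.1)
      (fun t => phi g t f.2) (phi_cont g _) (phi_cont g _) (phi_cont g _) (phi_cont g _)
    have h5 : ∃ᶠ t in 𝓝[≠] (0 : ℝ), t ∈ {t : ℝ | (segment ℝ (phi g t e.1) (phi g t e.2) ∩
        segment ℝ (phi g t f.1) (phi g t f.2)).Nonempty} :=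
      hFr.mono (fun t ht => (ht.2 e he f hf hef).2.2)
    have h6 := hcl.mem_of_frequently_of_tendsto h5
      (tendsto_id.mono_left nhdsWithin_le_nhds : Tendsto (fun t : ℝ => t) (𝓝[≠] 0) (𝓝 0))
    simpa only [Set.mem_setOf_eq, phi_zero] using h6
  refine ⟨F.card, fun i => ((F.equivFin.symm i).1).1, fun i => ((F.equivFin.symm i).1).2, ht0.1,
      fun i => (mem_product.1 (hF' (F.equivFin.symm i).2)).1,
      fun i => (mem_product.1 (hF' (F.equivFin.symm i).2)).2, ?_⟩
  intro i j hij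
  have hne : (F.equivFin.symm i).1 ≠ (F.equivFin.symm j).1 := by
    intro h
    exact hij (F.equivFin.symm.injective (Subtype.ext h))
  obtain ⟨g1, g2, _⟩ := ht0.2 _ (F.equivFin.symm i).2 _ (F.equivFin.symm j).2 hne
  exact ⟨g1, g2, hpair _ (F.equivFin.symm i).2 _ (F.equivFin.symm j).2 hne⟩

end Pool.Agent.Y28.CrossA
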