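import Pool.Agent.Y28.CrossA

set_option autoImplicit false

namespace Pool.Agent.Y28.CrossB

open Finset

/-- greedy independent sets -/
lemma indep {α : Type*} [DecidableEq α] (R : α → α → Prop) (d : ℕ) :
    ∀ (N : ℕ) (U : Finset α), U.card = N →
      (∀ i ∈ U, ∀ S ⊆ U, (∀ j ∈ S, j ≠ i ∧ R i j) → S.card ≤ d) →
      ∃ I ⊆ U, U.card ≤ (2 * d + 1) * I.card ∧ ∀ i ∈ I, ∀ j ∈ I, i ≠ j → ¬ R i j := by
  classical
  intro N
  induction N using Nat.strong_induction_on with
  | _ N ih =>
    intro U hU hd
    rcases U.eq_empty_or_nonempty with rfl | hne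
    · exact ⟨∅, by simp, by simp, by simp⟩
    · -- a vertex of small in-degree
      have hdeg : ∀ i ∈ U, (U.filter (fun j => j ≠ i ∧ R i j)).card ≤ d := by
        intro i hi
        exact hd i hi _ (filter_subset _ _) (fun j hj => (mem_filter.1 hj).2)
      obtain ⟨j0, hj0, hj0d⟩ : ∃ j ∈ U, (U.filter (fun i => j ≠ i ∧ R i j)).card ≤ d := by
        by_contra hcon
        push Not at hcon
        have h1 := Finset.sum_card_bipartiteAbove_eq_sum_card_bipartiteBelow (s := U) (t := U)
          (fun i j => j ≠ i ∧ R i j)
        have h2 : ∑ a ∈ U, (U.bipartiteAbove (fun i j => j ≠ i ∧ R i j) a).card ≤ U.card • d :=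
          Finset.sum_le_card_nsmul _ _ _ (fun i hi => hdeg i hi)
        have h3 : U.card • (d + 1) ≤ ∑ b ∈ U, (U.bipartiteBelow (fun i j => j ≠ i ∧ R i j) b).card :=
          Finset.card_nsmul_le_sum _ _ _ (fun j hj => hcon j hj)
        have h4 : 0 < U.card := card_pos.2 hne
        rw [← h1] at h3
        have h5 := le_trans h3 h2
        simp only [smul_eq_mul] at h5
        nlinarith
      set U' := U.filter (fun j => j ≠ j0 ∧ ¬ R j0 j ∧ ¬ R j j0) with hU'
      have hsub : U' ⊆ U := filter_subset _ _
      have hlt : U'.card < N := by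
        rw [← hU]
        apply card_lt_card
        refine ⟨hsub, fun h => ?_⟩
        have := h hj0
        rw [hU', mem_filter] at this
        exact this.2.1 rfl
      obtain ⟨I, hI, hIc, hIR⟩ := ih U'.card hlt U' rfl (fun i hi S hS hSR =>
        hd i (hsub hi) S (hS.trans hsub) hSR)
      have hj0I : j0 ∉ I := by
        intro h
        have := hI h
        rw [hU', mem_filter] at this
        exact this.2.1 rfl
      refine ⟨insert j0 I, ?_, ?_, ?_⟩
      · intro x hx
        rcases mem_insert.1 hx with rfl | hx
        · exact hj0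
        · exact hsub (hI hx)
      · rw [card_insert_of_notMem hj0I]
        have hcov : U ⊆ U' ∪ ({j0} ∪ (U.filter (fun j => j ≠ j0 ∧ R j0 j) ∪
            U.filter (fun i => j0 ≠ i ∧ R i j0))) := by
          intro x hx
          simp only [mem_union, mem_singleton, mem_filter, hU']
          by_cases h1 : x = j0
          · right; left; exact h1
          · by_cases h2 : R j0 x
            · right; right; left; exact ⟨hx, h1, h2⟩
            · by_cases h3 : R x j0
              · right; right; right; exact ⟨hx, fun e => h1 e.symm, h3⟩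
              · left; exact ⟨hx, h1, h2, h3⟩
        have h1 := card_le_card hcov
        have h2 := card_union_le U' ({j0} ∪ (U.filter (fun j => j ≠ j0 ∧ R j0 j) ∪
            U.filter (fun i => j0 ≠ i ∧ R i j0)))
        have h3 := card_union_le {j0} (U.filter (fun j => j ≠ j0 ∧ R j0 j) ∪
            U.filter (fun i => j0 ≠ i ∧ R i j0))
        have h4 := card_union_le (U.filter (fun j => j ≠ j0 ∧ R j0 j))
            (U.filter (fun i => j0 ≠ i ∧ R i j0))
        have h5 := hdeg j0 hj0
        have h6 : ({j0} : Finset α).card = 1 := card_singleton _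
        have h7 : (2 * d + 1) * (I.card + 1) = (2 * d + 1) * I.card + (2 * d + 1) := by ring
        omega
      · intro i hi j hj hij
        rcases mem_insert.1 hi with hi' | hi'
        · rcases mem_insert.1 hj with hj' | hj'
          · exact absurd (hi'.trans hj'.symm) hij
          · have := hI hj'
            rw [hU', mem_filter] at this
            rw [hi']
            exact this.2.2.1
        · rcases mem_insert.1 hj with hj' | hj'
          · have := hI hi'
            rw [hU', mem_filter] at this
            rw [hj']
            exact this.2.2.2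
          · exact hIR i hi' j hj' hij

/-- splitting a coloured set into two balanced parts with no common colour -/
lemma split {κ : Type*} (P : Finset (ℝ × ℝ)) (χ : ℝ × ℝ → κ) (m : ℕ)
    (hm : ∀ S ⊆ P, (∀ x ∈ S, ∀ y ∈ S, χ x = χ y) → S.card ≤ m) :
    ∃ (r : ℕ) (V₁ V₂ : Finset (ℝ × ℝ)), V₁ ⊆ P ∧ V₂ ⊆ P ∧ V₁.card = r ∧ V₂.card = r ∧
      P.card ≤ m + 4 * r ∧ ∀ x ∈ V₁, ∀ y ∈ V₂, χ x ≠ χ y := by
  classical
  set C := P.image χ with hC
  let tot : Finset κ → ℕ := fun S => (P.filter (fun x => χ x ∈ S)).card
  obtain ⟨S, hS, hmax⟩ := Finset.exists_max_image (C.powerset.filter (fun S => 2 * tot S ≤ P.card)) tot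
    ⟨∅, by
      rw [mem_filter]
      refine ⟨empty_mem_powerset _, ?_⟩
      simp [tot]⟩
  rw [mem_filter, mem_powerset] at hS
  have hmax' : ∀ T ⊆ C, 2 * tot T ≤ P.card → tot T ≤ tot S := fun T hT h =>
    hmax T (mem_filter.2 ⟨mem_powerset.2 hT, h⟩)
  have hcompl : (P.filter (fun x => χ x ∈ S)).card + (P.filter (fun x => ¬ χ x ∈ S)).card = P.card :=
    card_filter_add_card_filter_not _
  have hle : tot S ≤ (P.filter (fun x => ¬ χ x ∈ S)).card := by
    have := hS.2
    simp only [tot] at this ⊢
    omega
  obtain ⟨V₂, hV2, hV2c⟩ := exists_subset_card_eq hle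
  refine ⟨tot S, P.filter (fun x => χ x ∈ S), V₂, filter_subset _ _, hV2.trans (filter_subset _ _), rfl,
    hV2c, ?_, ?_⟩
  · by_contra hcon
    push Not at hcon
    have hpos : 0 < (P.filter (fun x => ¬ χ x ∈ S)).card := by
      simp only [tot] at hcon
      omega
    obtain ⟨x, hx⟩ := card_pos.1 hpos
    rw [mem_filter] at hx
    have hxC : χ x ∈ C := mem_image_of_mem _ hx.1
    have h1 : tot (insert (χ x) S) = tot S + tot {χ x} := by
      simp only [tot]
      rw [← card_union_of_disjoint]
      · congr 1
        ext y
        simp only [mem_filter, mem_insert, mem_union, mem_singleton]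
        tauto
      · rw [Finset.disjoint_left]
        intro y hy hy'
        rw [mem_filter] at hy hy'
        rw [mem_singleton.1 hy'.2] at hy
        exact hx.2 hy.2
    have h2 : 1 ≤ tot {χ x} := card_pos.2 ⟨x, by rw [mem_filter]; exact ⟨hx.1, mem_singleton_self _⟩⟩
    have h3 : P.card < 2 * tot (insert (χ x) S) := by
      by_contra h
      push Not at h
      have := hmax' _ (insert_subset hxC hS.1) h
      omega
    have h4 : P.card < 2 * tot {χ x} := by
      by_contra h
      push Not at h
      have := hmax' _ (singleton_subset_iff.2 hxC) h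
      omega
    have h5 : tot {χ x} ≤ m := by
      apply hm _ (filter_subset _ _)
      intro y hy z hz
      rw [mem_filter, mem_singleton] at hy hz
      rw [hy.2, hz.2]
    have h6 : tot (C.erase (χ x)) + tot {χ x} = P.card := by
      simp only [tot]
      rw [← card_union_of_disjoint]
      · congr 1
        ext y
        simp only [mem_filter, mem_erase, mem_union, mem_singleton]
        constructor
        · rintro (h | h)
          · exact h.1
          · exact h.1
        · intro hy
          by_cases h : χ y = χ x
          · right; exact ⟨hy, h⟩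
          · left; exact ⟨hy, h, mem_image_of_mem _ hy⟩
      · rw [Finset.disjoint_left]
        intro y hy hy'
        rw [mem_filter] at hy hy'
        rw [mem_erase] at hy
        exact hy.2.1 (mem_singleton.1 hy'.2)
    have h7 := hmax' (C.erase (χ x)) (erase_subset _ _) (by omega)
    omega
  · intro y hy z hz h
    rw [mem_filter] at hy
    have := (mem_filter.1 (hV2 hz)).2
    rw [← h] at this
    exact this hy.2

end Pool.Agent.Y28.CrossB
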