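import Pool.Agent.Y28.CrossB

set_option autoImplicit false

namespace Pool.Agent.Y28.CrossC

open Finset

/-- same as `Crosses` in the results file -/
def Cr (a b c d : ℝ × ℝ) : Prop :=
  ∃ x : ℝ × ℝ, segment ℝ a b ∩ segment ℝ c d = {x} ∧ x ∈ openSegment ℝ a b ∧ x ∈ openSegment ℝ c d

lemma seg_line {a b z : ℝ × ℝ} (h : z ∈ segment ℝ a b) : z ∈ line[ℝ, a, b] := by
  rw [segment_eq_image_lineMap] at h
  obtain ⟨s, -, rfl⟩ := h
  exact AffineMap.lineMap_mem_affineSpan_pair _ _ _

lemma line_eq_of_two {a b x y : ℝ × ℝ} (hxy : x ≠ y) (hx : x ∈ segment ℝ a b)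
    (hy : y ∈ segment ℝ a b) : a ∈ line[ℝ, x, y] ∧ b ∈ line[ℝ, x, y] := by
  rw [segment_eq_image_lineMap] at hx hy
  obtain ⟨s, hs, hxs⟩ := hx
  obtain ⟨t, ht, hyt⟩ := hy
  have hst : s ≠ t := by
    rintro rfl
    exact hxy (hxs.symm.trans hyt)
  have hts : t - s ≠ 0 := sub_ne_zero.2 hst.symm
  constructor
  · have key : a = AffineMap.lineMap x y ((0 - s) / (t - s)) := by
      rw [← hxs, ← hyt]
      ext <;> simp [AffineMap.lineMap_apply] <;> field_simp <;> ring
    have hm := AffineMap.lineMap_mem_affineSpan_pair ((0 - s) / (t - s)) x y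
    rwa [← key] at hm
  · have key : b = AffineMap.lineMap x y ((1 - s) / (t - s)) := by
      rw [← hxs, ← hyt]
      ext <;> simp [AffineMap.lineMap_apply] <;> field_simp <;> ring
    have hm := AffineMap.lineMap_mem_affineSpan_pair ((1 - s) / (t - s)) x y
    rwa [← key] at hm

/-- two segments with a common point cross if no endpoint of one is on the line of the other -/
lemma cross_of {p q r s : ℝ × ℝ} (hr : r ∉ line[ℝ, p, q]) (hs : s ∉ line[ℝ, p, q])
    (hp : p ∉ line[ℝ, r, s]) (hq : q ∉ line[ℝ, r, s])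
    (h : (segment ℝ p q ∩ segment ℝ r s).Nonempty) : Cr p q r s := by
  obtain ⟨x, hx1, hx2⟩ := h
  have h1 : p ≠ x := by rintro rfl; exact hp (seg_line hx2)
  have h2 : q ≠ x := by rintro rfl; exact hq (seg_line hx2)
  have h3 : r ≠ x := by rintro rfl; exact hr (seg_line hx1)
  have h4 : s ≠ x := by rintro rfl; exact hs (seg_line hx1)
  refine ⟨x, ?_, mem_openSegment_of_ne_left_right h1 h2 hx1, mem_openSegment_of_ne_left_right h3 h4 hx2⟩
  apply Set.Subset.antisymm
  · intro y hy
    by_contra hyx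
    rw [Set.mem_singleton_iff] at hyx
    have hyx' : x ≠ y := fun e => hyx e.symm
    obtain ⟨l1, _⟩ := line_eq_of_two hyx' hx2 hy.2
    apply hr
    have hle : line[ℝ, x, y] ≤ line[ℝ, p, q] := by
      rw [affineSpan_le]
      intro z hz
      rcases hz with rfl | hz
      · exact seg_line hx1
      · rw [Set.mem_singleton_iff] at hz
        rw [hz]; exact seg_line hy.1
    exact hle l1
  · intro y hy
    rw [Set.mem_singleton_iff] at hy
    rw [hy]
    exact ⟨hx1, hx2⟩

/-- coloured families of pairwise meeting segments, arbitrary point sets -/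
theorem weak : ∃ c : ℝ, 0 < c ∧ ∀ (P : Finset (ℝ × ℝ)) (κ : Type) (χ : ℝ × ℝ → κ) (m : ℕ),
    (∀ S ⊆ P, (∀ x ∈ S, ∀ y ∈ S, χ x = χ y) → S.card ≤ m) →
    ∃ (k : ℕ) (a b : Fin k → ℝ × ℝ), c * ((P.card : ℝ) - m) ≤ k ∧
      (∀ i, a i ∈ P ∧ b i ∈ P ∧ χ (a i) ≠ χ (b i)) ∧
      ∀ i j, i ≠ j → a i ≠ a j ∧ a i ≠ b j ∧ b i ≠ b j ∧
        (segment ℝ (a i) (b i) ∩ segment ℝ (a j) (b j)).Nonempty := by
  obtain ⟨c, hc, h⟩ := CrossA.bip
  refine ⟨c / 4, by positivity, ?_⟩
  intro P κ χ m hm
  obtain ⟨r, V₁, V₂, h1, h2, hc1, hc2, hr, hχ⟩ := CrossB.split P χ m hm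
  have hr' : (P.card : ℝ) ≤ m + 4 * r := by exact_mod_cast hr
  rcases Nat.eq_zero_or_pos r with hr0 | hr0
  · refine ⟨0, Fin.elim0, Fin.elim0, ?_, fun i => i.elim0, fun i => i.elim0⟩
    rw [hr0] at hr'
    push_cast at hr' ⊢
    nlinarith
  · obtain ⟨k, a, b, hk, ha, hb, hab⟩ := h r hr0 V₁ V₂ hc1 hc2 (by
      rw [Finset.disjoint_left]
      intro x hx hx'
      exact hχ x hx x hx' rfl)
    refine ⟨k, a, b, ?_, fun i => ⟨h1 (ha i), h2 (hb i), hχ _ (ha i) _ (hb i)⟩, ?_⟩
    · refine le_trans ?_ hk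
      nlinarith
    · intro i j hij
      obtain ⟨g1, g2, g3⟩ := hab i j hij
      exact ⟨g1, fun e => hχ _ (ha i) _ (hb j) (by rw [e]), g2, g3⟩

/-- from meeting families to crossing families -/
theorem strong_of_weak {P : Finset (ℝ × ℝ)} {κ : Type} {χ : ℝ × ℝ → κ} {k : ℕ} {a b : Fin k → ℝ × ℝ}
    (hP : ∀ i, a i ∈ P ∧ b i ∈ P ∧ χ (a i) ≠ χ (b i))
    (hab : ∀ i j, i ≠ j → a i ≠ a j ∧ a i ≠ b j ∧ b i ≠ b j ∧
        (segment ℝ (a i) (b i) ∩ segment ℝ (a j) (b j)).Nonempty) {L : ℕ} (hL : 2 ≤ L)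
    (hline : ∀ S ⊆ P, Collinear ℝ (S : Set (ℝ × ℝ)) → S.card ≤ L) :
    ∃ (k' : ℕ) (a' b' : Fin k' → ℝ × ℝ), k ≤ (2 * L - 3) * k' ∧
      (∀ i, a' i ∈ P ∧ b' i ∈ P ∧ χ (a' i) ≠ χ (b' i)) ∧
      ∀ i j, i ≠ j → a' i ≠ a' j ∧ a' i ≠ b' j ∧ b' i ≠ b' j ∧ Cr (a' i) (b' i) (a' j) (b' j) := by
  classical
  have hne : ∀ i, a i ≠ b i := fun i e => (hP i).2.2 (by rw [e])
  obtain ⟨I, _, hIc, hI⟩ := CrossB.indep
    (fun i j : Fin k => a j ∈ line[ℝ, a i, b i] ∨ b j ∈ line[ℝ, a i, b i]) (L - 2) k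
    (univ : Finset (Fin k)) (by simp) (by
      intro i _ S _ hS
      let f : Fin k → ℝ × ℝ := fun j => if a j ∈ line[ℝ, a i, b i] then a j else b j
      have hf : ∀ j, f j = a j ∨ f j = b j := by
        intro j
        simp only [f]
        split_ifs
        · left; rfl
        · right; rfl
      have hfl : ∀ j ∈ S, f j ∈ line[ℝ, a i, b i] := by
        intro j hj
        simp only [f]
        split_ifs with h
        · exact h
        · exact (hS j hj).2.resolve_left h
      have hfi : Set.InjOn f (S : Set (Fin k)) := by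
        intro j _ l _ hjl
        by_contra hjl'
        obtain ⟨g1, g2, g3, _⟩ := hab j l hjl'
        obtain ⟨_, g2', _, _⟩ := hab l j (Ne.symm hjl')
        rcases hf j with e | e <;> rcases hf l with e' | e' <;> rw [e, e'] at hjl
        · exact g1 hjl
        · exact g2 hjl
        · exact g2' hjl.symm
        · exact g3 hjl
      have hai : a i ∉ insert (b i) (S.image f) := by
        intro h
        rcases mem_insert.1 h with h | h
        · exact hne i h
        · obtain ⟨j, hj, hj'⟩ := mem_image.1 h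
          have hji : j ≠ i := (hS j hj).1
          rcases hf j with e | e <;> rw [e] at hj'
          · exact (hab j i hji).1 hj'
          · exact (hab i j (Ne.symm hji)).2.1 hj'.symm
      have hbi : b i ∉ S.image f := by
        intro h
        obtain ⟨j, hj, hj'⟩ := mem_image.1 h
        have hji : j ≠ i := (hS j hj).1
        rcases hf j with e | e <;> rw [e] at hj'
        · exact (hab j i hji).2.1 hj'
        · exact (hab j i hji).2.2.1 hj'
      have hcard := hline (insert (a i) (insert (b i) (S.image f))) (by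
          intro x hx
          rcases mem_insert.1 hx with rfl | hx
          · exact (hP i).1
          · rcases mem_insert.1 hx with rfl | hx
            · exact (hP i).2.1
            · obtain ⟨j, _, rfl⟩ := mem_image.1 hx
              rcases hf j with e | e <;> rw [e]
              · exact (hP j).1
              · exact (hP j).2.1) (by
          rw [collinear_iff_of_mem (p₀ := a i) (by simp)]
          refine ⟨b i - a i, ?_⟩
          intro p hp
          have hpl : p ∈ line[ℝ, a i, b i] := by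
            rcases mem_insert.1 (mem_coe.1 hp) with rfl | hp
            · exact left_mem_affineSpan_pair ℝ _ _
            · rcases mem_insert.1 hp with rfl | hp
              · exact right_mem_affineSpan_pair ℝ _ _
              · obtain ⟨j, hj, rfl⟩ := mem_image.1 hp
                exact hfl j hj
          obtain ⟨r, hr⟩ := (mem_affineSpan_pair_iff_exists_lineMap_eq).1 hpl
          refine ⟨r, ?_⟩
          rw [← hr, AffineMap.lineMap_apply]
          simp)
      rw [card_insert_of_notMem hai, card_insert_of_notMem hbi, card_image_of_injOn hfi] at hcard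
      omega)
  refine ⟨I.card, fun i => a (I.equivFin.symm i).1, fun i => b (I.equivFin.symm i).1, ?_,
    fun i => hP _, ?_⟩
  · have : 2 * L - 3 = 2 * (L - 2) + 1 := by omega
    rw [this]
    simpa using hIc
  · intro i j hij
    have hne' : (I.equivFin.symm i).1 ≠ (I.equivFin.symm j).1 := by
      intro h
      exact hij (I.equivFin.symm.injective (Subtype.ext h))
    obtain ⟨g1, g2, g3, g4⟩ := hab _ _ hne'
    have h1 := hI _ (I.equivFin.symm i).2 _ (I.equivFin.symm j).2 hne'
    have h2 := hI _ (I.equivFin.symm j).2 _ (I.equivFin.symm i).2 (Ne.symm hne')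
    push Not at h1 h2
    exact ⟨g1, g2, g3, cross_of h1.1 h1.2 h2.1 h2.2 g4⟩

/-- upper bound -/
theorem upper {P : Finset (ℝ × ℝ)} {κ : Type} {χ : ℝ × ℝ → κ} {k : ℕ} {a b : Fin k → ℝ × ℝ}
    (hP : ∀ i, a i ∈ P ∧ b i ∈ P ∧ χ (a i) ≠ χ (b i))
    (hab : ∀ i j, i ≠ j → a i ≠ a j ∧ a i ≠ b j ∧ b i ≠ b j)
    {S : Finset (ℝ × ℝ)} (hS : S ⊆ P) (hmono : ∀ x ∈ S, ∀ y ∈ S, χ x = χ y) :
    k + S.card ≤ P.card := by
  classical
  let f : Fin k → ℝ × ℝ := fun j => if a j ∈ S then b j else a j
  have hf : ∀ j, f j = a j ∨ f j = b j := by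
    intro j
    simp only [f]
    split_ifs
    · right; rfl
    · left; rfl
  have hfS : ∀ j, f j ∉ S := by
    intro j
    simp only [f]
    split_ifs with h
    · intro h'
      exact (hP j).2.2 (hmono _ h _ h')
    · exact h
  have hfi : Function.Injective f := by
    intro j l hjl
    by_contra hjl'
    obtain ⟨g1, g2, g3⟩ := hab j l hjl'
    obtain ⟨_, g2', _⟩ := hab l j (Ne.symm hjl')
    rcases hf j with e | e <;> rcases hf l with e' | e' <;> rw [e, e'] at hjl
    · exact g1 hjl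
    · exact g2 hjl
    · exact g2' hjl.symm
    · exact g3 hjl
  have h1 : (univ.image f).card = k := by
    rw [card_image_of_injective _ hfi]; simp
  have h2 : univ.image f ⊆ P \ S := by
    intro x hx
    obtain ⟨j, _, rfl⟩ := mem_image.1 hx
    refine mem_sdiff.2 ⟨?_, hfS j⟩
    rcases hf j with e | e <;> rw [e]
    · exact (hP j).1
    · exact (hP j).2.1
  have h3 := card_le_card h2
  have h4 := card_sdiff_add_card_eq_card hS
  omega

end Pool.Agent.Y28.CrossC
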